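import Pool.Agent.N356.SP.Defs

/-!
# Project LS: splitting of the weighted quadruples (LS3c) and bound for quadruples (LS3d)
-/

set_option autoImplicit false

namespace Pool.Agent.N232.LS

open Finset Pool.Agent.H384R3.SPk Pool.Agent.N356.SP

variable {Γ : Type*} [AddCommGroup Γ]

theorem mem_TQ {C : Finset Γ} (a b c d : Γ) : (a, b, c, d) ∈ TQ C ↔
    (a ∈ C ∧ b ∈ C ∧ c ∈ C ∧ d ∈ C) ∧ (b ≠ -c ∧ c ≠ -d ∧ b ≠ -d) ∧ a + b + c + d = 0 := by
  classical
  unfold TQ TY ap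
  simp only [mem_filter, mem_product, not_or]
  constructor
  · rintro ⟨⟨h1, ⟨h2, h3, h4⟩, h5⟩, h6⟩
    exact ⟨⟨h1, h2, h3, h4⟩, h5, h6⟩
  · rintro ⟨⟨h1, h2, h3, h4⟩, h5, h6⟩
    exact ⟨⟨h1, ⟨h2, h3, h4⟩, h5⟩, h6⟩

/-- LS3c -/
theorem Wsplit {C : Finset Γ} {θ : Γ → Γ → ℝ} (h : GoodC C θ)
    (I : Multiset Γ → ℝ) (I0 : ∀ U, 0 ≤ I U) (Iz : ∀ U : Multiset Γ, U.sum ≠ 0 → I U = 0) :
    ∑ s ∈ C, ∑ t ∈ C, ∑ u ∈ C, ∑ v ∈ C, θ s t * θ u v * I {s, t, u, v} ≤
      2 * (∑ s ∈ C, ∑ t ∈ C, θ s t ^ 2 * I {s, -s, t, -t}) +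
      ∑ Q ∈ TQ C, w2 Q * I (Q.1 ::ₘ ms Q.2) := by
  classical
  have hw0 : ∀ Q : Γ × Γ × Γ × Γ, 0 ≤ w2 Q := by
    intro Q
    unfold w2
    split_ifs <;> norm_num
  obtain ⟨X, hX⟩ : ∃ X : Γ → Γ → ℝ, X = fun s t => θ s t ^ 2 * I {s, -s, t, -t} := ⟨_, rfl⟩
  have hX0 : ∀ s t, 0 ≤ X s t := by
    intro s t; rw [hX]; exact mul_nonneg (sq_nonneg _) (I0 _)
  obtain ⟨Y, hY⟩ : ∃ Y : Γ × Γ × Γ × Γ → ℝ, Y = fun Q => w2 Q * I (Q.1 ::ₘ ms Q.2) := ⟨_, rfl⟩
  have hY0 : ∀ Q, 0 ≤ Y Q := by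
    intro Q; rw [hY]; exact mul_nonneg (hw0 _) (I0 _)
  have key : ∀ s ∈ C, ∀ t ∈ C, ∀ u ∈ C, ∀ v ∈ C, θ s t * θ u v * I {s, t, u, v} ≤
      (if u = -s then (if v = -t then X s t else 0) else 0) +
      (if u = -t then (if v = -s then X s t else 0) else 0) +
      (if (s, t, u, v) ∈ TQ C then Y (s, t, u, v) else 0) := by
    intro s hs t ht u hu v hv
    have n1 : 0 ≤ (if u = -s then (if v = -t then X s t else 0) else 0) := by
      split_ifs <;> first | exact hX0 _ _ | exact le_rfl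
    have n2 : 0 ≤ (if u = -t then (if v = -s then X s t else 0) else 0) := by
      split_ifs <;> first | exact hX0 _ _ | exact le_rfl
    have n3 : 0 ≤ (if (s, t, u, v) ∈ TQ C then Y (s, t, u, v) else 0) := by
      split_ifs <;> first | exact hY0 _ | exact le_rfl
    by_cases h0 : θ s t * θ u v * I {s, t, u, v} = 0
    · rw [h0]; positivity
    have a1 : θ s t ≠ 0 := fun e => h0 (by rw [e]; ring)
    have a2 : θ u v ≠ 0 := fun e => h0 (by rw [e]; ring)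
    have a3 : I {s, t, u, v} ≠ 0 := fun e => h0 (by rw [e]; ring)
    have hsum : s + t + u + v = 0 := by
      by_contra hne
      refine a3 (Iz _ ?_)
      simp only [Multiset.insert_eq_cons, Multiset.sum_cons, Multiset.sum_singleton]
      intro h'
      apply hne
      rw [← h']
      abel
    have b1 : t ≠ s := fun e => a1 (by rw [e]; exact h.self s)
    have b2 : t ≠ -s := fun e => a1 (by rw [e]; exact h.anti s)
    have b3 : v ≠ u := fun e => a2 (by rw [e]; exact h.self u)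
    have b4 : v ≠ -u := fun e => a2 (by rw [e]; exact h.anti u)
    by_cases c1 : u = -s
    · have c2 : v = -t := by
        rw [c1] at hsum
        rw [eq_neg_iff_add_eq_zero, ← hsum]; abel
      rw [if_pos c1, if_pos c2] at n1 ⊢
      have e1 : θ s t * θ u v * I {s, t, u, v} = X s t := by
        rw [hX, c1, c2, h.even]
        have : ({s, t, -s, -t} : Multiset Γ) = {s, -s, t, -t} := by
          simp only [Multiset.insert_eq_cons]
          rw [Multiset.cons_swap t (-s)]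
        rw [this]
        ring
      rw [e1]
      linarith
    by_cases c3 : v = -s
    · have c4 : u = -t := by
        rw [c3] at hsum
        rw [eq_neg_iff_add_eq_zero, ← hsum]; abel
      rw [if_pos c4, if_pos c3] at n2 ⊢
      have e1 : θ s t * θ u v * I {s, t, u, v} = X s t := by
        rw [hX, c3, c4, h.even, h.symm s t]
        have : ({s, t, -t, -s} : Multiset Γ) = {s, -s, t, -t} := by
          simp only [Multiset.insert_eq_cons, ← Multiset.singleton_add]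
          abel
        rw [this]
        ring
      rw [e1]
      linarith
    have d1 : t ≠ -u := by
      intro e
      apply c3
      rw [e] at hsum
      rw [eq_neg_iff_add_eq_zero, ← hsum]; abel
    have d2 : t ≠ -v := by
      intro e
      apply c1
      rw [e] at hsum
      rw [eq_neg_iff_add_eq_zero, ← hsum]; abel
    have d3 : u ≠ -v := fun e => b4 (by rw [e, neg_neg])
    have hQ : (s, t, u, v) ∈ TQ C := (mem_TQ s t u v).2 ⟨⟨hs, ht, hu, hv⟩, ⟨d1, d3, d2⟩, hsum⟩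
    rw [if_pos hQ]
    have e1 : θ s t * θ u v * I {s, t, u, v} ≤ Y (s, t, u, v) := by
      rw [hY]
      have e2 : w2 (s, t, u, v) = 27 / 16 := by
        unfold w2
        exact if_pos ⟨fun e => b1 e.symm, fun e => b3 e.symm⟩
      show _ ≤ w2 (s, t, u, v) * I (s ::ₘ ms (t, u, v))
      rw [e2]
      refine mul_le_mul_of_nonneg_right ?_ (I0 _)
      exact h.quad s hs t ht u hu v hv hsum (fun e => b2 (by rw [e, neg_neg]))
        (fun e => c1 (by rw [e, neg_neg])) (fun e => c3 (by rw [e, neg_neg])) d1 d2 d3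
    linarith
  have S1 : ∑ s ∈ C, ∑ t ∈ C, ∑ u ∈ C, ∑ v ∈ C,
      (if u = -s then (if v = -t then X s t else 0) else 0) = ∑ s ∈ C, ∑ t ∈ C, X s t := by
    refine sum_congr rfl fun s hs => sum_congr rfl fun t ht => ?_
    have : ∀ u ∈ C, (∑ v ∈ C, (if u = -s then (if v = -t then X s t else 0) else 0)) =
        if u = -s then X s t else 0 := by
      intro u _
      by_cases hu : u = -s
      · simp only [if_pos hu]
        rw [sum_ite_eq' C (-t), if_pos (h.neg t ht)]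
      · simp only [if_neg hu]
        exact sum_const_zero
    rw [sum_congr rfl this, sum_ite_eq' C (-s), if_pos (h.neg s hs)]
  have S2 : ∑ s ∈ C, ∑ t ∈ C, ∑ u ∈ C, ∑ v ∈ C,
      (if u = -t then (if v = -s then X s t else 0) else 0) = ∑ s ∈ C, ∑ t ∈ C, X s t := by
    refine sum_congr rfl fun s hs => sum_congr rfl fun t ht => ?_
    have : ∀ u ∈ C, (∑ v ∈ C, (if u = -t then (if v = -s then X s t else 0) else 0)) =
        if u = -t then X s t else 0 := by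
      intro u _
      by_cases hu : u = -t
      · simp only [if_pos hu]
        rw [sum_ite_eq' C (-s), if_pos (h.neg s hs)]
      · simp only [if_neg hu]
        exact sum_const_zero
    rw [sum_congr rfl this, sum_ite_eq' C (-t), if_pos (h.neg t ht)]
  have S3 : ∑ s ∈ C, ∑ t ∈ C, ∑ u ∈ C, ∑ v ∈ C,
      (if (s, t, u, v) ∈ TQ C then Y (s, t, u, v) else 0) = ∑ Q ∈ TQ C, Y Q := by
    have e1 : ∑ s ∈ C, ∑ t ∈ C, ∑ u ∈ C, ∑ v ∈ C,
        (if (s, t, u, v) ∈ TQ C then Y (s, t, u, v) else 0) =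
        ∑ Q ∈ C ×ˢ C ×ˢ C ×ˢ C, if Q ∈ TQ C then Y Q else 0 := by
      rw [sum_product]
      refine sum_congr rfl fun s _ => ?_
      rw [sum_product]
      refine sum_congr rfl fun t _ => ?_
      rw [sum_product]
    rw [e1, ← sum_filter]
    refine sum_congr ?_ fun _ _ => rfl
    ext ⟨s, t, u, v⟩
    simp only [mem_filter, mem_product, mem_TQ]
    tauto
  calc ∑ s ∈ C, ∑ t ∈ C, ∑ u ∈ C, ∑ v ∈ C, θ s t * θ u v * I {s, t, u, v}
      ≤ ∑ s ∈ C, ∑ t ∈ C, ∑ u ∈ C, ∑ v ∈ C,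
        ((if u = -s then (if v = -t then X s t else 0) else 0) +
        (if u = -t then (if v = -s then X s t else 0) else 0) +
        (if (s, t, u, v) ∈ TQ C then Y (s, t, u, v) else 0)) :=
        sum_le_sum fun s hs => sum_le_sum fun t ht => sum_le_sum fun u hu =>
          sum_le_sum fun v hv => key s hs t ht u hu v hv
    _ = (∑ s ∈ C, ∑ t ∈ C, X s t) + (∑ s ∈ C, ∑ t ∈ C, X s t) + ∑ Q ∈ TQ C, Y Q := by
        simp only [sum_add_distrib]
        rw [S1, S2, S3]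
    _ = _ := by rw [hX, hY]; ring

/-- LS3d -/
theorem Qbound {C : Finset Γ} (hneg : ∀ s ∈ C, -s ∈ C) (hne : ∀ s ∈ C, s ≠ -s)
    (I : Multiset Γ → ℝ) (I0 : ∀ U, 0 ≤ I U) :
    8 / 3 * (∑ Q ∈ TQ C, w2 Q * ∑ x ∈ C, I ({x, -x} + (Q.1 ::ₘ ms Q.2))) ≤
      6 * (∑ Q ∈ TQ C, ∑ x ∈ C, I ({x, -x} + (Q.1 ::ₘ ms Q.2))) -
      6 * ∑ Q ∈ TQ C, I ({Q.1, -Q.1} + (Q.1 ::ₘ ms Q.2)) := by
  classical
  obtain ⟨J, hJ⟩ : ∃ J : Γ × Γ × Γ × Γ → Γ → ℝ,
    J = fun Q x => I ({x, -x} + (Q.1 ::ₘ ms Q.2)) := ⟨_, rfl⟩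
  have hJ0 : ∀ Q x, 0 ≤ J Q x := by intro Q x; rw [hJ]; exact I0 _
  have hJn : ∀ Q x, J Q (-x) = J Q x := by
    intro Q x
    rw [hJ]
    show I ({-x, - -x} + (Q.1 ::ₘ ms Q.2)) = I ({x, -x} + (Q.1 ::ₘ ms Q.2))
    rw [neg_neg, Multiset.pair_comm]
  -- rotation
  have hrot : ∀ a b c d x, J (b, c, d, a) x = J (a, b, c, d) x := by
    intro a b c d x
    rw [hJ]
    show I ({x, -x} + (b ::ₘ ms (c, d, a))) = I ({x, -x} + (a ::ₘ ms (b, c, d)))
    congr 2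
    unfold ms
    simp only [Multiset.insert_eq_cons, ← Multiset.singleton_add]
    abel
  have hmem : ∀ a b c d, (a, b, c, d) ∈ TQ C → (b, c, d, a) ∈ TQ C := by
    intro a b c d hQ
    obtain ⟨⟨h1, h2, h3, h4⟩, ⟨h5, h6, h7⟩, h8⟩ := (mem_TQ a b c d).1 hQ
    refine (mem_TQ b c d a).2 ⟨⟨h2, h3, h4, h1⟩, ⟨h6, ?_, ?_⟩, by rw [← h8]; abel⟩
    · intro e
      apply h5
      rw [e] at h8
      rw [eq_neg_iff_add_eq_zero, ← h8]; abel
    · intro e
      apply h7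
      rw [e] at h8
      rw [eq_neg_iff_add_eq_zero, ← h8]; abel
  have hsumrot : ∀ f : Γ × Γ × Γ × Γ → ℝ,
      ∑ Q ∈ TQ C, f (Q.2.1, Q.2.2.1, Q.2.2.2, Q.1) = ∑ Q ∈ TQ C, f Q := by
    intro f
    refine sum_bij' (fun Q _ => (Q.2.1, Q.2.2.1, Q.2.2.2, Q.1))
      (fun Q _ => (Q.2.2.2, Q.1, Q.2.1, Q.2.2.1)) ?_ ?_ ?_ ?_ ?_
    · rintro ⟨a, b, c, d⟩ hQ
      exact hmem a b c d hQ
    · rintro ⟨a, b, c, d⟩ hQ
      exact hmem _ _ _ _ (hmem _ _ _ _ (hmem a b c d hQ))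
    · rintro ⟨a, b, c, d⟩ _; rfl
    · rintro ⟨a, b, c, d⟩ _; rfl
    · rintro ⟨a, b, c, d⟩ _; rfl
  have r2 : ∑ Q ∈ TQ C, J Q Q.2.1 = ∑ Q ∈ TQ C, J Q Q.1 := by
    rw [← hsumrot (fun Q => J Q Q.1)]
    refine sum_congr rfl ?_
    rintro ⟨a, b, c, d⟩ _
    exact (hrot a b c d b).symm
  have r3 : ∑ Q ∈ TQ C, J Q Q.2.2.1 = ∑ Q ∈ TQ C, J Q Q.1 := by
    rw [← r2, ← hsumrot (fun Q => J Q Q.2.1)]
    refine sum_congr rfl ?_
    rintro ⟨a, b, c, d⟩ _
    exact (hrot a b c d c).symm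
  have r4 : ∑ Q ∈ TQ C, J Q Q.2.2.2 = ∑ Q ∈ TQ C, J Q Q.1 := by
    rw [← r3, ← hsumrot (fun Q => J Q Q.2.2.1)]
    refine sum_congr rfl ?_
    rintro ⟨a, b, c, d⟩ _
    exact (hrot a b c d d).symm
  have key : ∀ Q ∈ TQ C, 8 / 3 * (w2 Q * ∑ x ∈ C, J Q x) +
      3 / 2 * (J Q Q.1 + J Q Q.2.1 + J Q Q.2.2.1 + J Q Q.2.2.2) ≤ 6 * ∑ x ∈ C, J Q x := by
    rintro ⟨a, b, c, d⟩ hQ
    obtain ⟨⟨h1, h2, h3, h4⟩, ⟨h5, h6, h7⟩, h8⟩ := (mem_TQ a b c d).1 hQ
    obtain ⟨Q, hQd⟩ : ∃ Q : Γ × Γ × Γ × Γ, Q = (a, b, c, d) := ⟨_, rfl⟩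
    show 8 / 3 * (w2 (a, b, c, d) * ∑ x ∈ C, J (a, b, c, d) x) +
      3 / 2 * (J (a, b, c, d) a + J (a, b, c, d) b + J (a, b, c, d) c + J (a, b, c, d) d) ≤
      6 * ∑ x ∈ C, J (a, b, c, d) x
    rw [← hQd]
    have m1 := single_le_sum (f := fun x => J Q x) (fun x _ => hJ0 Q x) h1
    have m2 := single_le_sum (f := fun x => J Q x) (fun x _ => hJ0 Q x) h2
    have m3 := single_le_sum (f := fun x => J Q x) (fun x _ => hJ0 Q x) h3
    have m4 := single_le_sum (f := fun x => J Q x) (fun x _ => hJ0 Q x) h4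
    by_cases hab : a ≠ b ∧ c ≠ d
    · have e2 : w2 Q = 27 / 16 := by
        rw [hQd]; unfold w2; exact if_pos hab
      have k1 : a ≠ -c := by
        intro e
        apply h7
        rw [e] at h8
        rw [eq_neg_iff_add_eq_zero, ← h8]; abel
      have k2 : a ≠ -d := by
        intro e
        apply h5
        rw [e] at h8
        rw [eq_neg_iff_add_eq_zero, ← h8]; abel
      have k3 : J Q a + J Q b + J Q c + J Q d ≤ ∑ x ∈ C, J Q x := by
        have hsub : ({a, b, -c, -d} : Finset Γ) ⊆ C := by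
          intro x hx
          simp only [mem_insert, mem_singleton] at hx
          rcases hx with rfl | rfl | rfl | rfl
          · exact h1
          · exact h2
          · exact hneg _ h3
          · exact hneg _ h4
        have h9 := sum_le_sum_of_subset_of_nonneg (f := fun x => J Q x) hsub
          (fun x _ _ => hJ0 Q x)
        have n1 : a ∉ ({b, -c, -d} : Finset Γ) := by
          simp only [mem_insert, mem_singleton, not_or]
          exact ⟨hab.1, k1, k2⟩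
        have n2 : b ∉ ({-c, -d} : Finset Γ) := by
          simp only [mem_insert, mem_singleton, not_or]
          exact ⟨h5, h7⟩
        have n3 : -c ∉ ({-d} : Finset Γ) := by
          simp only [mem_singleton]
          exact fun e => hab.2 (neg_injective e)
        rw [sum_insert n1, sum_insert n2, sum_insert n3, sum_singleton] at h9
        simp only [hJn] at h9
        linarith
      rw [e2]
      linarith
    · have e2 : w2 Q = 0 := by
        rw [hQd]; unfold w2; exact if_neg hab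
      rw [e2]
      linarith
  have hsum := sum_le_sum key
  rw [sum_add_distrib, ← mul_sum, ← mul_sum, ← mul_sum, sum_add_distrib, sum_add_distrib,
    sum_add_distrib, r2, r3, r4] at hsum
  have g1 : ∑ Q ∈ TQ C, w2 Q * ∑ x ∈ C, I ({x, -x} + (Q.1 ::ₘ ms Q.2)) =
      ∑ Q ∈ TQ C, w2 Q * ∑ x ∈ C, J Q x := by rw [hJ]
  have g2 : ∑ Q ∈ TQ C, ∑ x ∈ C, I ({x, -x} + (Q.1 ::ₘ ms Q.2)) =
      ∑ Q ∈ TQ C, ∑ x ∈ C, J Q x := by rw [hJ]
  have g3 : ∑ Q ∈ TQ C, I ({Q.1, -Q.1} + (Q.1 ::ₘ ms Q.2)) = ∑ Q ∈ TQ C, J Q Q.1 := by rw [hJ]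
  rw [g1, g2, g3]
  linarith

end Pool.Agent.N232.LS
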