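import Pool.Agent.N356.SP.Defs4

/-!
# KS18: the parameters for `K ^ 4 = 2744 / 5` (adapted from Pool.Agent.N966.LS.Good3)
-/

set_option autoImplicit false

namespace Pool.Agent.N232.LS

open Pool.Agent.N356.SP

theorem c4_pos : 0 < c4 := by
  unfold c4
  positivity

theorem c4_pow : c4 ^ 4 = 2744 / 5 := by
  unfold c4
  rw [← Real.rpow_natCast, ← Real.rpow_mul (by norm_num)]
  norm_num

theorem c4_ge : (121 : ℝ) / 25 ≤ c4 := by
  by_contra h
  push Not at h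
  have h1 : c4 ^ 4 < (121 / 25 : ℝ) ^ 4 := pow_lt_pow_left₀ h c4_pos.le (by norm_num)
  rw [c4_pow] at h1
  norm_num at h1

theorem b4_pos {n : ℕ} (hn : 4 ≤ n) {b : ℝ} (hb : (n : ℝ) ^ b = c4) : 0 < b := by
  by_contra h
  push Not at h
  have h0 : (1 : ℝ) ≤ n := by exact_mod_cast (by omega : 1 ≤ n)
  have h1 : (n : ℝ) ^ b ≤ 1 := Real.rpow_le_one_of_one_le_of_nonpos h0 h
  have h2 := c4_ge
  rw [hb] at h1
  linarith

theorem b4_le {n : ℕ} (hn : 4 ≤ n) {b : ℝ} (hb : (n : ℝ) ^ b = c4) {m k : ℕ} (hm : 0 < m)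
    (h : (2744 : ℕ) ^ m ≤ 5 ^ m * n ^ k) : b ≤ k / (4 * m) := by
  by_contra hc
  push Not at hc
  have h0 : (1 : ℝ) < n := by exact_mod_cast (by omega : 1 < n)
  have hm' : (0 : ℝ) < m := by exact_mod_cast hm
  have h1 : (n : ℝ) ^ ((k : ℝ) / (4 * m)) < (n : ℝ) ^ b := Real.rpow_lt_rpow_of_exponent_lt h0 hc
  have h2 : ((n : ℝ) ^ ((k : ℝ) / (4 * m))) ^ (4 * m) < ((n : ℝ) ^ b) ^ (4 * m) :=
    pow_lt_pow_left₀ h1 (by positivity) (by omega)
  rw [hb, pow_mul c4, c4_pow, ← Real.rpow_natCast, ← Real.rpow_mul (by positivity)] at h2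
  have h3 : (k : ℝ) / (4 * m) * ((4 * m : ℕ) : ℝ) = k := by
    push_cast
    field_simp
  rw [h3, Real.rpow_natCast, div_pow, lt_div_iff₀ (by positivity)] at h2
  have h4 : (2744 : ℝ) ^ m ≤ 5 ^ m * (n : ℝ) ^ k := by exact_mod_cast h
  linarith

theorem le_of_pow4 {x y : ℝ} {r : ℝ} {k : ℕ} (hx : 0 ≤ x) (hy : 0 ≤ y) (hk : k ≠ 0)
    (h : x ^ (r * k) ≤ y ^ k) : x ^ r ≤ y := by
  rw [Real.rpow_mul hx, Real.rpow_natCast] at h
  exact le_of_pow_le_pow_left₀ hk hy h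

/-- Bernoulli -/
theorem bern4 {b B : ℝ} (hb : 0 < b) (hB : b ≤ B) : (1 + 1 / b) ^ b ≤ (1 + 1 / B) ^ B := by
  have hB0 : 0 < B := by linarith
  have h1 : 1 + (B / b) * (1 / B) ≤ (1 + 1 / B) ^ (B / b) :=
    one_add_mul_self_le_rpow_one_add (by have : 0 < 1 / B := by positivity
                                         linarith) (by rw [le_div_iff₀ hb]; linarith)
  have h2 : 1 + (B / b) * (1 / B) = 1 + 1 / b := by field_simp
  rw [h2] at h1
  calc (1 + 1 / b) ^ b ≤ ((1 + 1 / B) ^ (B / b)) ^ b :=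
        Real.rpow_le_rpow (by positivity) h1 hb.le
    _ = (1 + 1 / B) ^ B := by
        rw [← Real.rpow_mul (by positivity)]
        congr 1
        field_simp

theorem c24_of {n b B w x : ℝ} (hn : 1 < n) (hb : 0 < b) (hB : b ≤ B) (hw : 1 - 1 / n ≤ w)
    (hx : (1 + 1 / B) ^ B ≤ x) (h : w * (1 + B) * x ≤ c4) :
    (1 + (1 - 1 / n) / ((1 - 1 / n) * b)) ^ (1 + b) ≤ c4 / ((1 - 1 / n) * b) := by
  have hn1 : 0 < 1 - 1 / n := by
    rw [sub_pos, div_lt_one (by linarith)]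
    exact hn
  have e1 : (1 - 1 / n) / ((1 - 1 / n) * b) = 1 / b := by
    rw [div_mul_eq_div_div, div_self hn1.ne']
  rw [e1, le_div_iff₀ (by positivity)]
  have h1 : (1 + 1 / b) ^ (1 + b) = (1 + 1 / b) * (1 + 1 / b) ^ b := by
    rw [Real.rpow_add (by positivity), Real.rpow_one]
  have h2 := (bern4 hb hB).trans hx
  have hx0 : 0 < x := lt_of_lt_of_le (by positivity) h2
  rw [h1]
  calc (1 + 1 / b) * (1 + 1 / b) ^ b * ((1 - 1 / n) * b) ≤
      (1 + 1 / b) * x * ((1 - 1 / n) * b) := by gcongr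
    _ = (1 - 1 / n) * (1 + b) * x := by field_simp; ring
    _ ≤ w * (1 + B) * x := by
        have : (1 - 1 / n) * (1 + b) ≤ w * (1 + B) :=
          mul_le_mul hw (by linarith) (by linarith) (by linarith)
        exact mul_le_mul_of_nonneg_right this hx0.le
    _ ≤ c4 := h

theorem hnp4_of {n : ℕ} (hn : 4 ≤ n) {b : ℝ} (hb : (n : ℝ) ^ b = c4) : 1 ≤ ((n : ℝ) - 1) * b := by
  by_contra hc
  push Not at hc
  have h0 : (1 : ℝ) < n := by exact_mod_cast (by omega : 1 < n)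
  have h1 : (n : ℝ) ^ (((n : ℝ) - 1) * b) < (n : ℝ) ^ (1 : ℝ) :=
    Real.rpow_lt_rpow_of_exponent_lt h0 hc
  rw [mul_comm, Real.rpow_mul (by positivity), hb, Real.rpow_one] at h1
  obtain ⟨k, rfl⟩ : ∃ k, n = k + 1 := ⟨n - 1, by omega⟩
  have e1 : (((k + 1 : ℕ) : ℝ) - 1) = (k : ℝ) := by
    push_cast
    ring
  rw [e1, Real.rpow_natCast] at h1
  have h2 : (3 : ℝ) ^ k ≤ c4 ^ k :=
    pow_le_pow_left₀ (by norm_num) (by have := c4_ge; linarith) k
  have h3 : ((k + 1 : ℕ) : ℝ) ≤ 3 ^ k := by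
    have h4 : k + 1 ≤ 3 ^ k := Nat.lt_pow_self (by norm_num)
    exact_mod_cast h4
  linarith

/-- KS18 -/
theorem good4 {n : ℕ} (hn : 4 ≤ n) {b : ℝ} (hb : (n : ℝ) ^ b = c4) :
    Good' n b c4 ∧ (1 - 1 / (n : ℝ)) * b ≤ 427 / 500 ∧
      (1 + 2 / 5 * (1 - 1 / (n : ℝ))) ^ (1 + b) ≤ 2 / 5 * c4 ∧ (121 : ℝ) / 25 ≤ c4 := by
  have hb0 := b4_pos hn hb
  have hge := c4_ge
  have hn1 : (1 : ℝ) < n := by exact_mod_cast (by omega : 1 < n)
  have hn2 : (2 : ℝ) ≤ n := by exact_mod_cast (by omega : 2 ≤ n)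
  have hnp := hnp4_of hn hb
  suffices h : (1 + (1 - 1 / (n : ℝ)) / ((1 - 1 / (n : ℝ)) * b)) ^ (1 + b) ≤
      c4 / ((1 - 1 / (n : ℝ)) * b) ∧ (1 - 1 / (n : ℝ)) * b ≤ 427 / 500 ∧
      (1 + 2 / 5 * (1 - 1 / (n : ℝ))) ^ (1 + b) ≤ 2 / 5 * c4 from
    ⟨⟨hn2, hb0, hb, hnp, h.1⟩, h.2.1, h.2.2, hge⟩
  have hge2 : (242 : ℝ) / 125 ≤ 2 / 5 * c4 := by linarith
  have h3 : n = 4 ∨ n = 5 ∨ 6 ≤ n := by omega
  rcases h3 with rfl | rfl | h6
  · have hb1 : b ≤ 33 / 29 := by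
      have := b4_le hn hb (m := 29) (k := 132) (by norm_num) (by norm_num)
      norm_num at this ⊢
      exact this
    refine ⟨?_, ?_, ?_⟩
    · refine c24_of (B := 3 / 2) (w := 3 / 4) (x := 11 / 5) hn1 hb0 (by linarith) (by norm_num)
        ?_ (by linarith)
      refine le_of_pow4 (k := 2) (by norm_num) (by norm_num) (by norm_num) ?_
      have e : (3 / 2 : ℝ) * ((2 : ℕ) : ℝ) = ((3 : ℕ) : ℝ) := by norm_num
      rw [e, Real.rpow_natCast]
      norm_num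
    · push_cast
      linarith
    · push_cast
      have h1 : (1 + 2 / 5 * (1 - 1 / 4 : ℝ)) ^ (1 + b) ≤
          (1 + 2 / 5 * (1 - 1 / 4 : ℝ)) ^ (11 / 5 : ℝ) :=
        Real.rpow_le_rpow_of_exponent_le (by norm_num) (by linarith)
      refine h1.trans (le_trans ?_ hge2)
      refine le_of_pow4 (k := 5) (by norm_num) (by norm_num) (by norm_num) ?_
      have e : (11 / 5 : ℝ) * ((5 : ℕ) : ℝ) = ((11 : ℕ) : ℝ) := by norm_num
      rw [e, Real.rpow_natCast]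
      norm_num
  · have hb1 : b ≤ 1 := by
      have := b4_le hn hb (m := 1) (k := 4) (by norm_num) (by norm_num)
      norm_num at this ⊢
      exact this
    refine ⟨?_, ?_, ?_⟩
    · refine c24_of (B := 1) (w := 4 / 5) (x := 2) hn1 hb0 (by linarith) (by norm_num)
        (by rw [Real.rpow_one]; norm_num) (by linarith)
    · push_cast
      linarith
    · push_cast
      have h1 : (1 + 2 / 5 * (1 - 1 / 5 : ℝ)) ^ (1 + b) ≤
          (1 + 2 / 5 * (1 - 1 / 5 : ℝ)) ^ (2 : ℝ) :=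
        Real.rpow_le_rpow_of_exponent_le (by norm_num) (by linarith)
      refine h1.trans (le_trans ?_ hge2)
      norm_num
  · have h60 : (2744 : ℕ) ^ 9 ≤ 5 ^ 9 * n ^ 32 :=
      le_trans (by norm_num) (Nat.mul_le_mul_left _ (Nat.pow_le_pow_left h6 32))
    have hb1 : b ≤ 8 / 9 := by
      have := b4_le hn hb (m := 9) (k := 32) (by norm_num) h60
      norm_num at this ⊢
      exact this
    have hn0 : (0 : ℝ) < n := by linarith
    have hw : 1 - 1 / (n : ℝ) ≤ 1 := by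
      have : 0 < 1 / (n : ℝ) := by positivity
      linarith
    have hw0 : 0 ≤ 1 - 1 / (n : ℝ) := by
      rw [sub_nonneg, div_le_one hn0]
      exact hn1.le
    refine ⟨?_, ?_, ?_⟩
    · refine c24_of (B := 1) (w := 1) (x := 2) hn1 hb0 (by linarith) hw
        (by rw [Real.rpow_one]; norm_num) (by linarith)
    · have h7 : n = 6 ∨ 7 ≤ n := by omega
      rcases h7 with rfl | h7
      · push_cast
        linarith
      · have h70 : (2744 : ℕ) ^ 3 ≤ 5 ^ 3 * n ^ 10 :=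
          le_trans (by norm_num) (Nat.mul_le_mul_left _ (Nat.pow_le_pow_left h7 10))
        have hb2 : b ≤ 5 / 6 := by
          have := b4_le hn hb (m := 3) (k := 10) (by norm_num) h70
          norm_num at this ⊢
          exact this
        nlinarith
    · have h1 : (1 + 2 / 5 * (1 - 1 / (n : ℝ))) ^ (1 + b) ≤ (7 / 5 : ℝ) ^ (17 / 9 : ℝ) :=
        calc (1 + 2 / 5 * (1 - 1 / (n : ℝ))) ^ (1 + b) ≤ (7 / 5 : ℝ) ^ (1 + b) :=
              Real.rpow_le_rpow (by linarith) (by linarith) (by linarith)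
          _ ≤ (7 / 5 : ℝ) ^ (17 / 9 : ℝ) :=
              Real.rpow_le_rpow_of_exponent_le (by norm_num) (by linarith)
      refine h1.trans (le_trans ?_ hge2)
      refine le_of_pow4 (k := 9) (by norm_num) (by norm_num) (by norm_num) ?_
      have e : (17 / 9 : ℝ) * ((9 : ℕ) : ℝ) = ((17 : ℕ) : ℝ) := by norm_num
      rw [e, Real.rpow_natCast]
      norm_num

end Pool.Agent.N232.LS
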